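import Pool.Agent.H41.HKB.Targets

/-!
# MP_bd932b_co, board hkb_modules: rows SEL, CTP, CTQ, WSM, GZ, OUT, PIG, FIN
-/

set_option autoImplicit false

namespace Pool.Agent.H45.HKB

open Finset Filter Pool.Agent.H42.BD Pool.Agent.H41.HKB
open scoped Classical

theorem pf_SEL (hSLA : T_SLA) (hSLB : T_SLB) : T_SEL := by
  intro V S r g w p hp0 hp1 hg hw hws hcard hrefl hsymm htrans
  obtain ⟨K1, hK1, h1⟩ := hSLA V S r g w p hp0 hp1 hg hw hcard hrefl
  obtain ⟨K, hK, h2, h3⟩ := hSLB V K1 r w hw hws (fun a ha => hrefl a (hK1 ha))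
    (fun a ha b hb => hsymm a (hK1 ha) b (hK1 hb))
    (fun a ha b hb c hc => htrans a (hK1 ha) b (hK1 hb) c (hK1 hc))
  exact ⟨K, hK.trans hK1, h2, h1.trans h3⟩

theorem C2_pos {k : ℕ} {M : ℝ} (hk2 : 2 ≤ k) (hM : 0 < M) : 0 < C2 k M := by
  unfold C2
  have h1 : (2 : ℝ) ≤ k := by exact_mod_cast hk2
  have h2 : (0 : ℝ) ≤ (hk k : ℝ) := Nat.cast_nonneg _
  have h3 : 0 < (k : ℝ) - 1 := by linarith
  positivity

theorem one_le_Dd {k : ℕ} {M ε : ℝ} (hk2 : 2 ≤ k) (hM : 0 < M) : 1 ≤ Dd k M ε := by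
  unfold Dd
  have h1 := (C2_pos hk2 hM).le
  have h2 : 0 ≤ C2 k M / ε ^ 2 := by positivity
  linarith

theorem pf_CTP (hDCT : T_DCT) : T_CTP := by
  intro k M ε hk2 hM hε V _ G hG C _ l v hC
  have hD := hDCT k M ε hk2 hM hε V G hG v
  set D : Finset V := univ.filter (fun u => Dp ε G v u) with hDdef
  have hsub : ((univ : Finset (C → V)).filter
      (fun g => g l = v ∧ ∀ i j, i ≠ j → Dp ε G (g i) (g j))) ⊆
      Fintype.piFinset (fun i : C => if i = l then {v} else D) := by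
    intro g hg
    rw [mem_filter] at hg
    rw [Fintype.mem_piFinset]
    intro i
    by_cases hi : i = l
    · rw [if_pos hi, hi, mem_singleton]; exact hg.2.1
    · rw [if_neg hi, hDdef, mem_filter]
      refine ⟨mem_univ _, ?_⟩
      have h := hg.2.2 l i (fun h => hi h.symm)
      rwa [hg.2.1] at h
  have h1 : (((univ : Finset (C → V)).filter
      (fun g => g l = v ∧ ∀ i j, i ≠ j → Dp ε G (g i) (g j))).card : ℝ) ≤
      ∏ i : C, (((if i = l then {v} else D) : Finset V).card : ℝ) := by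
    have h2 := card_le_card hsub
    rw [Fintype.card_piFinset] at h2
    exact_mod_cast h2
  refine h1.trans ?_
  have h3 : ∏ i : C, (((if i = l then {v} else D) : Finset V).card : ℝ) ≤
      ∏ _i : C, Dd k M ε := by
    refine prod_le_prod (fun _ _ => Nat.cast_nonneg _) (fun i _ => ?_)
    by_cases hi : i = l
    · rw [if_pos hi, card_singleton, Nat.cast_one]; exact one_le_Dd hk2 hM
    · rw [if_neg hi]
      unfold Dd
      linarith
  refine h3.trans ?_
  rw [prod_const, card_univ]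
  exact pow_le_pow_right₀ (one_le_Dd hk2 hM) hC

theorem pf_CTQ (hCTP : T_CTP) : T_CTQ := by
  intro k M ε hk2 hM hε V _ G hG C _ x hC1 hC
  obtain ⟨l⟩ := Fintype.card_pos_iff.1 (by omega : 0 < Fintype.card C)
  have hsub : ((univ : Finset (C → V)).filter
      (fun g => (∀ i, G.Adj x (g i)) ∧ ∀ i j, i ≠ j → Dp ε G (g i) (g j))) ⊆
      (nb G x).biUnion (fun v => (univ : Finset (C → V)).filter
        (fun g => g l = v ∧ ∀ i j, i ≠ j → Dp ε G (g i) (g j))) := by
    intro g hg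
    rw [mem_filter] at hg
    rw [mem_biUnion]
    exact ⟨g l, mem_nb.2 (hg.2.1 l), mem_filter.2 ⟨mem_univ _, rfl, hg.2.2⟩⟩
  have h1 : (((univ : Finset (C → V)).filter
      (fun g => (∀ i, G.Adj x (g i)) ∧ ∀ i j, i ≠ j → Dp ε G (g i) (g j))).card : ℝ) ≤
      ∑ v ∈ nb G x, (((univ : Finset (C → V)).filter
        (fun g => g l = v ∧ ∀ i j, i ≠ j → Dp ε G (g i) (g j))).card : ℝ) := by
    have h2 := (card_le_card hsub).trans card_biUnion_le
    exact_mod_cast h2
  refine h1.trans ?_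
  have h3 : ∑ v ∈ nb G x, (((univ : Finset (C → V)).filter
        (fun g => g l = v ∧ ∀ i j, i ≠ j → Dp ε G (g i) (g j))).card : ℝ) ≤
      ∑ _v ∈ nb G x, Dd k M ε ^ k :=
    sum_le_sum (fun v _ => hCTP k M ε hk2 hM hε V G hG C l v hC)
  refine h3.trans ?_
  rw [sum_const, nsmul_eq_mul]
  unfold sB
  have h4 := hG.deg x
  have h5 : 0 ≤ Dd k M ε ^ k := by
    have := one_le_Dd (ε := ε) hk2 hM
    positivity
  exact mul_le_mul_of_nonneg_right h4 h5

theorem cn_sub_nb {V : Type} [Fintype V] (G : SimpleGraph V) (x z : V) : cn G x z ⊆ nb G x := by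
  intro y hy
  rw [mem_cn] at hy
  exact mem_nb.2 hy.1

theorem pf_WSM : T_WSM := by
  intro T ε ε' V _ G x
  set P : Finset (V × V) := nb G x ×ˢ nb G x with hP
  have hW : ∀ z ∈ Zp ε' G x, Wz T ε ε' G x z ≤ (1 / 2) * ∑ p ∈ P,
      (if p.1 ∈ Sp T ε G x z ∧ p.2 ∈ Sp T ε G x z then wp T ε ε' G x p.1 p.2 else 0) := by
    intro z _
    unfold Wz
    refine mul_le_mul_of_nonneg_left ?_ (by norm_num)
    have h1 : ∑ a ∈ Sp T ε G x z, ∑ b ∈ Sp T ε G x z,
        (if Sm ε G a b then 0 else wp T ε ε' G x a b) ≤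
        ∑ a ∈ Sp T ε G x z, ∑ b ∈ Sp T ε G x z, wp T ε ε' G x a b := by
      refine sum_le_sum (fun a _ => sum_le_sum (fun b _ => ?_))
      split_ifs
      · exact wp_nonneg _ _ _ _ _ _ _
      · exact le_refl _
    refine h1.trans (le_of_eq ?_)
    rw [← sum_product', ← sum_filter]
    refine sum_congr ?_ (fun _ _ => rfl)
    ext p
    rw [mem_product, mem_filter, hP, mem_product]
    constructor
    · rintro ⟨ha, hb⟩
      exact ⟨⟨cn_sub_nb G x z (Sp_sub ha), cn_sub_nb G x z (Sp_sub hb)⟩, ha, hb⟩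
    · rintro ⟨_, ha, hb⟩
      exact ⟨ha, hb⟩
  refine (sum_le_sum hW).trans ?_
  rw [← mul_sum, sum_comm]
  have h2 : ∑ p ∈ P, ∑ z ∈ Zp ε' G x,
      (if p.1 ∈ Sp T ε G x z ∧ p.2 ∈ Sp T ε G x z then wp T ε ε' G x p.1 p.2 else 0) ≤
      ∑ _p ∈ P, (1 : ℝ) := by
    refine sum_le_sum (fun p _ => ?_)
    rw [← sum_filter, sum_const, nsmul_eq_mul]
    unfold wp Np
    rw [one_div]
    exact mul_inv_le_one
  rw [sum_const, nsmul_eq_mul, mul_one, hP, card_product] at h2
  push_cast at h2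
  nlinarith

theorem n_pos {V : Type} [Fintype V] (x : V) : (1 : ℝ) ≤ (Fintype.card V : ℝ) := by
  have : 0 < Fintype.card V := Fintype.card_pos_iff.2 ⟨x⟩
  exact_mod_cast this

theorem pf_GZ (hL2 : T_L2) : T_GZ := by
  intro k T M ε ε' θ η hk2 hM hθ hη V _ G hG x hsum
  have hn := n_pos x
  have hC := C2_pos hk2 hM
  set u : V → ℝ := fun z => ((Sp T ε G x z).card : ℝ) - 2 / 3 * Wz T ε ε' G x z with hu
  set Z := (Zp ε' G x).filter (fun z => θ ≤ u z) with hZ
  have hsplit := sum_filter_add_sum_filter_not (Zp ε' G x) (fun z => θ ≤ u z) u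
  have hbad : ∑ z ∈ (Zp ε' G x).filter (fun z => ¬ θ ≤ u z), u z ≤ θ * Fintype.card V := by
    calc ∑ z ∈ (Zp ε' G x).filter (fun z => ¬ θ ≤ u z), u z ≤
          ∑ _z ∈ (Zp ε' G x).filter (fun z => ¬ θ ≤ u z), θ := by
          refine sum_le_sum (fun z hz => ?_)
          rw [mem_filter, not_le] at hz
          exact hz.2.le
      _ = ((Zp ε' G x).filter (fun z => ¬ θ ≤ u z)).card * θ := by
          rw [sum_const, nsmul_eq_mul]
      _ ≤ Fintype.card V * θ := by
          refine mul_le_mul_of_nonneg_right ?_ hθ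
          exact_mod_cast card_le_univ _
      _ = θ * Fintype.card V := mul_comm _ _
  have hgood : ∑ z ∈ Z, u z ≤ ∑ z ∈ Z, (cd G x z : ℝ) := by
    refine sum_le_sum (fun z _ => ?_)
    have h1 : ((Sp T ε G x z).card : ℝ) ≤ cd G x z := by
      exact_mod_cast card_le_card Sp_sub
    have h2 := Wz_nonneg T ε ε' G x z
    simp only [hu]
    linarith
  have h1 : η * Fintype.card V ≤ ∑ z ∈ Z, (cd G x z : ℝ) := by
    have : (θ + η) * (Fintype.card V : ℝ) ≤ ∑ z ∈ Zp ε' G x, u z := hsum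
    linarith
  have h2 : (∑ z ∈ Z, (cd G x z : ℝ)) ^ 2 ≤ Z.card * ∑ z ∈ Z, (cd G x z : ℝ) ^ 2 :=
    sq_sum_le_card_mul_sum_sq
  have h3 : ∑ z ∈ Z, (cd G x z : ℝ) ^ 2 ≤ C2 k M * Fintype.card V := by
    refine le_trans ?_ (hL2 k M hk2 hM V G hG x)
    refine sum_le_sum_of_subset_of_nonneg ?_ (fun _ _ _ => by positivity)
    intro z hz
    rw [hZ, mem_filter] at hz
    unfold Zp at hz
    rw [mem_filter] at hz
    rw [mem_erase]
    exact ⟨hz.1.2.1, mem_univ _⟩
  have h4 : (η * Fintype.card V) ^ 2 ≤ Z.card * (C2 k M * Fintype.card V) := by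
    calc (η * (Fintype.card V : ℝ)) ^ 2 ≤ (∑ z ∈ Z, (cd G x z : ℝ)) ^ 2 :=
          pow_le_pow_left₀ (by positivity) h1 2
      _ ≤ Z.card * ∑ z ∈ Z, (cd G x z : ℝ) ^ 2 := h2
      _ ≤ Z.card * (C2 k M * Fintype.card V) :=
          mul_le_mul_of_nonneg_left h3 (Nat.cast_nonneg _)
  have h5 : η ^ 2 * (Fintype.card V : ℝ) ≤ Z.card * C2 k M := by
    have h6 : (η ^ 2 * (Fintype.card V : ℝ)) * Fintype.card V ≤
        (Z.card * C2 k M) * Fintype.card V := by
      calc (η ^ 2 * (Fintype.card V : ℝ)) * Fintype.card V = (η * Fintype.card V) ^ 2 := by ring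
        _ ≤ Z.card * (C2 k M * Fintype.card V) := h4
        _ = (Z.card * C2 k M) * Fintype.card V := by ring
    exact le_of_mul_le_mul_right h6 (by linarith)
  have h7 : η ^ 2 / C2 k M * Fintype.card V = η ^ 2 * Fintype.card V / C2 k M := by ring
  rw [h7, div_le_iff₀ hC]
  exact h5

theorem sn_sq {V : Type} [Fintype V] : sn V ^ 2 = Fintype.card V := by
  unfold sn
  exact Real.sq_sqrt (Nat.cast_nonneg _)

theorem sn_nonneg {V : Type} [Fintype V] : 0 ≤ sn V := Real.sqrt_nonneg _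

theorem pf_OUT (hL2 : T_L2) : T_OUT := by
  intro k M ε' hk2 hM hε' V _ G hG x
  have hn := n_pos x
  have hC := C2_pos hk2 hM
  have hL := hL2 k M hk2 hM V G hG x
  have hs := sn_nonneg (V := V)
  set H : Finset V := (univ.erase x).filter (fun z => ε' * sn V ≤ (cd G x z : ℝ)) with hH
  have hdeg := hG.deg x
  have hcd : ∀ z, (cd G x z : ℝ) ≤ M * sn V := by
    intro z
    refine le_trans ?_ hdeg
    exact_mod_cast card_le_card (cn_sub_nb G x z)
  have hpt : ∀ z ∈ univ \ Zp ε' G x, (cd G x z : ℝ) ≤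
      (if z = x then (cd G x z : ℝ) else 0) + (if z ∈ nb G x then (cd G x z : ℝ) else 0) +
        (if z ∈ H then (cd G x z : ℝ) else 0) := by
    intro z hz
    rw [Finset.mem_sdiff] at hz
    have hc0 : (0 : ℝ) ≤ cd G x z := Nat.cast_nonneg _
    have p1 : 0 ≤ (if z = x then (cd G x z : ℝ) else 0) := by split_ifs <;> positivity
    have p2 : 0 ≤ (if z ∈ nb G x then (cd G x z : ℝ) else 0) := by split_ifs <;> positivity
    have p3 : 0 ≤ (if z ∈ H then (cd G x z : ℝ) else 0) := by split_ifs <;> positivity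
    by_cases h1 : z = x
    · rw [if_pos h1]; linarith
    · by_cases h2 : z ∈ nb G x
      · rw [if_pos h2]; linarith
      · have h3 : z ∈ H := by
          rw [hH, mem_filter, mem_erase]
          refine ⟨⟨h1, mem_univ _⟩, ?_⟩
          by_contra h4
          apply hz.2
          unfold Zp
          rw [mem_filter]
          exact ⟨mem_univ _, h1, fun h => h2 (mem_nb.2 h), lt_of_not_ge h4⟩
        rw [if_pos h3]; linarith
  have hall : ∑ z ∈ univ \ Zp ε' G x, (cd G x z : ℝ) ≤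
      (cd G x x : ℝ) + ∑ z ∈ nb G x, (cd G x z : ℝ) + ∑ z ∈ H, (cd G x z : ℝ) := by
    refine (sum_le_sum hpt).trans ?_
    have h5 : ∑ z ∈ univ \ Zp ε' G x,
        ((if z = x then (cd G x z : ℝ) else 0) + (if z ∈ nb G x then (cd G x z : ℝ) else 0) +
        (if z ∈ H then (cd G x z : ℝ) else 0)) ≤
        ∑ z : V, ((if z = x then (cd G x z : ℝ) else 0) +
        (if z ∈ nb G x then (cd G x z : ℝ) else 0) +
        (if z ∈ H then (cd G x z : ℝ) else 0)) := by
      refine sum_le_sum_of_subset_of_nonneg (subset_univ _) (fun z _ _ => ?_)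
      have hc0 : (0 : ℝ) ≤ cd G x z := Nat.cast_nonneg _
      split_ifs <;> positivity
    refine h5.trans (le_of_eq ?_)
    rw [sum_add_distrib, sum_add_distrib, sum_ite_eq' univ x, if_pos (mem_univ _),
      sum_ite_mem, sum_ite_mem, univ_inter, univ_inter]
  have hA : (cd G x x : ℝ) ≤ M * sn V := hcd x
  have hB : ∑ z ∈ nb G x, (cd G x z : ℝ) ≤
      Real.sqrt (M * sn V * (C2 k M * Fintype.card V)) := by
    refine Real.le_sqrt_of_sq_le ?_
    refine sq_sum_le_card_mul_sum_sq.trans ?_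
    refine mul_le_mul hdeg ?_ (sum_nonneg (fun _ _ => by positivity)) (by positivity)
    refine le_trans ?_ hL
    refine sum_le_sum_of_subset_of_nonneg ?_ (fun _ _ _ => by positivity)
    intro z hz
    rw [mem_nb] at hz
    rw [mem_erase]
    exact ⟨hz.ne', mem_univ _⟩
  have hHc : (H.card : ℝ) ≤ C2 k M / ε' ^ 2 := by
    have h6 : (H.card : ℝ) * (ε' * sn V) ^ 2 ≤ C2 k M * Fintype.card V := by
      calc (H.card : ℝ) * (ε' * sn V) ^ 2 = ∑ _z ∈ H, (ε' * sn V) ^ 2 := by
            rw [sum_const, nsmul_eq_mul]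
        _ ≤ ∑ z ∈ H, (cd G x z : ℝ) ^ 2 := by
            refine sum_le_sum (fun z hz => ?_)
            rw [hH, mem_filter] at hz
            exact pow_le_pow_left₀ (by positivity) hz.2 2
        _ ≤ ∑ z ∈ univ.erase x, (cd G x z : ℝ) ^ 2 :=
            sum_le_sum_of_subset_of_nonneg (filter_subset _ _) (fun _ _ _ => by positivity)
        _ ≤ C2 k M * Fintype.card V := hL
    rw [mul_pow, sn_sq] at h6
    rw [le_div_iff₀ (by positivity)]
    have h7 : ((H.card : ℝ) * ε' ^ 2) * Fintype.card V ≤ C2 k M * Fintype.card V := by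
      calc ((H.card : ℝ) * ε' ^ 2) * Fintype.card V =
            (H.card : ℝ) * (ε' ^ 2 * Fintype.card V) := by ring
        _ ≤ C2 k M * Fintype.card V := h6
    exact le_of_mul_le_mul_right h7 (by linarith)
  have hCc : ∑ z ∈ H, (cd G x z : ℝ) ≤ C2 k M / ε' ^ 2 * (M * sn V) := by
    calc ∑ z ∈ H, (cd G x z : ℝ) ≤ ∑ _z ∈ H, M * sn V := sum_le_sum (fun z _ => hcd z)
      _ = H.card * (M * sn V) := by rw [sum_const, nsmul_eq_mul]
      _ ≤ C2 k M / ε' ^ 2 * (M * sn V) := mul_le_mul_of_nonneg_right hHc (by positivity)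
  linarith

theorem pf_PIG : T_PIG := by
  intro k V Z Y r _ hrefl hsymm htrans
  let A : V → Fin k → Finset (Fin k) := fun z i => univ.filter (fun j => r (Y z i) (Y z j))
  let f : V → Fin k → Fin k := fun z i => if h : (A z i).Nonempty then (A z i).min' h else i
  have hAi : ∀ z ∈ Z, ∀ i, (A z i).Nonempty := fun z hz i =>
    ⟨i, mem_filter.2 ⟨mem_univ _, hrefl z hz i⟩⟩
  have hfi : ∀ z ∈ Z, ∀ i, f z i ∈ A z i := by
    intro z hz i
    have h := hAi z hz i
    have e : f z i = (A z i).min' h := dif_pos h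
    rw [e]
    exact min'_mem _ _
  have hf : ∀ z ∈ Z, ∀ i j, (f z i = f z j ↔ r (Y z i) (Y z j)) := by
    intro z hz i j
    constructor
    · intro h
      have h1 := (mem_filter.1 (hfi z hz i)).2
      have h2 := (mem_filter.1 (hfi z hz j)).2
      rw [← h] at h2
      exact htrans z hz i _ j h1 (hsymm z hz j _ h2)
    · intro h
      have hAA : A z i = A z j := by
        ext m
        rw [mem_filter, mem_filter]
        constructor
        · rintro ⟨_, hm⟩
          exact ⟨mem_univ _, htrans z hz j i m (hsymm z hz i j h) hm⟩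
        · rintro ⟨_, hm⟩
          exact ⟨mem_univ _, htrans z hz i j m h hm⟩
      have h1 := hAi z hz i
      have h2 := hAi z hz j
      have e1 : f z i = (A z i).min' h1 := dif_pos h1
      have e2 : f z j = (A z j).min' h2 := dif_pos h2
      rw [e1, e2]
      congr 1
  have hne : (univ : Finset (Fin k → Fin k)).Nonempty := ⟨id, mem_univ _⟩
  obtain ⟨ρ, _, hρ⟩ := exists_max_image (univ : Finset (Fin k → Fin k))
    (fun ρ => (Z.filter (fun z => f z = ρ)).card) hne
  refine ⟨ρ, Z.filter (fun z => f z = ρ), filter_subset _ _, ?_, ?_⟩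
  · have h1 : Z.card = ∑ σ : Fin k → Fin k, (Z.filter (fun z => f z = σ)).card :=
      card_eq_sum_card_fiberwise (fun _ _ => mem_univ _)
    rw [h1]
    calc ∑ σ : Fin k → Fin k, (Z.filter (fun z => f z = σ)).card ≤
          ∑ _σ : Fin k → Fin k, (Z.filter (fun z => f z = ρ)).card :=
          sum_le_sum (fun σ _ => hρ σ (mem_univ _))
      _ = k ^ k * (Z.filter (fun z => f z = ρ)).card := by
          rw [sum_const, card_univ, smul_eq_mul, Fintype.card_fun, Fintype.card_fin]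
  · intro z hz i j
    rw [mem_filter] at hz
    rw [← hz.2]
    exact hf z hz.1 i j

theorem pf_FIN (hASY : T_ASY) : T_FIN := by
  intro k hk2
  by_cases h9 : 9 ≤ k
  · exact hASY k h9
  refine (limsup_bounds hk2).2.trans ?_
  have hk0 : (0 : ℝ) ≤ k := Nat.cast_nonneg k
  have hsq : ((3 / 4) * (k : ℝ) ^ ((3 : ℝ) / 4)) ^ 2 = 9 / 16 * (k * Real.sqrt k) := by
    have h1 : ((k : ℝ) ^ ((3 : ℝ) / 4)) ^ 2 = k * Real.sqrt k := by
      rw [← Real.rpow_natCast, ← Real.rpow_mul hk0]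
      have h2 : (3 : ℝ) / 4 * ((2 : ℕ) : ℝ) = (3 : ℝ) / 2 := by push_cast; norm_num
      rw [h2, rpow32]
      calc Real.sqrt k ^ 3 = Real.sqrt k ^ 2 * Real.sqrt k := by ring
        _ = k * Real.sqrt k := by rw [Real.sq_sqrt hk0]
    rw [mul_pow, h1]
    norm_num
  rw [Real.sqrt_le_left (by positivity), hsq]
  have hs1 : 1 ≤ Real.sqrt k := by
    rw [Real.one_le_sqrt]
    exact_mod_cast (by omega : 1 ≤ k)
  have hkey : (k : ℝ) - 1 ≤ 9 / 2 * Real.sqrt k := by
    by_cases h5 : k ≤ 5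
    · have : (k : ℝ) ≤ 5 := by exact_mod_cast h5
      linarith
    · have h8 : (k : ℝ) ≤ 8 := by exact_mod_cast (by omega : k ≤ 8)
      have hs2 : 2 ≤ Real.sqrt k := by
        apply Real.le_sqrt_of_sq_le
        have : (6 : ℝ) ≤ k := by exact_mod_cast (by omega : 6 ≤ k)
        linarith
      linarith
  nlinarith

end Pool.Agent.H45.HKB
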